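import Pool.Agent.H70.RZT.S
import Pool.Agent.H22.T1.ZON3

/-!
# RZT, row E2M
-/

set_option autoImplicit false

namespace Pool.RZT

open Polynomial Matrix NumberField IsDedekindDomain Pool.HYP Pool.TOW Pool.AVS Pool.T1 Pool.NF

/-- The class of a divisor does not depend on the representative. -/
theorem h22_locsol_cong {L : Type} [Field L] {f p q s : L[X]} (hs : IsCoprime s f)
    (hd : f ∣ q - p * s ^ 2) (h : LocSol f p) : LocSol f q := by
  obtain ⟨u, w, t, hu, hc, hw, ht⟩ := h
  obtain ⟨r, b, hrb⟩ := hs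
  refine ⟨u, w, r * t, hu, hc, hw, ?_⟩
  obtain ⟨c, hc'⟩ := hd
  obtain ⟨e, he⟩ := ht
  have h1 : (-1) ^ u.natDegree * u - q * (r * t) ^ 2 =
      f * (e - c * (r * t) ^ 2 + p * t ^ 2 * b * (1 + r * s)) := by
    have h2 : r * s = 1 - b * f := by
      rw [← hrb]
      ring
    linear_combination he - (r * t) ^ 2 * hc' - p * t ^ 2 * (1 + r * s) * h2
  rw [h1]
  exact Dvd.intro _ rfl

/-- E2M: the classes with `Loc2E` form a group. -/
theorem e2m (hS : SPC2Stmt) (hI : IRL2Stmt) (hM : MULStmt) : E2MStmt := by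
  intro K _ _ E _ _ hsp D Y hD f hf
  have hm : f.Monic := hf.1
  have hdeg : f.natDegree = 3 := hf.2.1
  refine ⟨?_, ?_, ?_⟩
  · intro p q hp hq L _ O' ι P hP h2
    obtain ⟨h3, h4⟩ := hS K P E L O' ι hP
    have h5 := hI K L O' (ι.comp (algebraMap K E)) (h3 (hsp P h2)) (h4.1 h2) D Y hD f hf
    have h6 : (fk K f).map (ι.comp (algebraMap K E)) = (fkE K E f).map ι :=
      (Polynomial.map_map _ _ _).symm
    rw [h6] at h5
    have hmL : ((fkE K E f).map ι).Monic := ((hm.map _).map _).map _
    have hdL : ((fkE K E f).map ι).natDegree = 3 := by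
      rw [((hm.map _).map _).natDegree_map, (hm.map _).natDegree_map, hm.natDegree_map, hdeg]
    rw [Polynomial.map_mul]
    exact hM L _ _ _ hmL hdL h5 (hp L O' ι P hP h2) (hq L O' ι P hP h2)
  · intro p q s hs hd hp L _ O' ι P hP h2
    have h3 : IsCoprime (s.map ι) ((fkE K E f).map ι) := hs.map (Polynomial.mapRingHom ι)
    have h4 := _root_.map_dvd (Polynomial.mapRingHom ι) hd
    rw [map_sub, map_mul, map_pow] at h4
    exact h22_locsol_cong h3 h4 (hp L O' ι P hP h2)
  · intro p σ hp L _ O' ι P hP h2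
    have h3 := hp L O' (ι.comp (σ : E →+* E)) P (Z22.abv_comp hP σ) h2
    have h5 : (ι.comp (σ : E →+* E)).comp (algebraMap K E) = ι.comp (algebraMap K E) := by
      ext x
      simp
    have h4 : (fkE K E f).map (ι.comp (σ : E →+* E)) = (fkE K E f).map ι := by
      show ((fk K f).map (algebraMap K E)).map (ι.comp (σ : E →+* E)) =
        ((fk K f).map (algebraMap K E)).map ι
      rw [Polynomial.map_map (algebraMap K E) (ι.comp (σ : E →+* E)) (fk K f), h5,
        ← Polynomial.map_map]
    rw [h4, ← Polynomial.map_map] at h3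
    exact h3

end Pool.RZT
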