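import Pool.Agent.H70.RZT.S
import Pool.Agent.H22.NF.CPU

/-!
# RZT, rows SPUN and E2I
-/

set_option autoImplicit false

namespace Pool.RZT

open Polynomial Matrix NumberField IsDedekindDomain Pool.HYP Pool.TOW Pool.AVS Pool.T1 Pool.NF
  Pool.NF.H22C

/-- SPUN: a prime which splits completely is unramified. -/
theorem spun : SPUNStmt := by
  intro K _ _ E _ _ P hS L _ O ι hA z hz hz'
  have hz0 : z ≠ 0 := fun h => hz' (by rw [h, _root_.inv_zero]; exact O.zero_mem)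
  obtain ⟨x, hx⟩ := hS L O ι hA z (z ^ 2) (pow_ne_zero 2 hz0)
  obtain ⟨c, hc⟩ : ∃ c : O, (c : L) = (z - ι (algebraMap K E x)) / z ^ 2 := ⟨⟨_, hx⟩, rfl⟩
  have hιx : ι (algebraMap K E x) = z * (1 - z * c) := by
    rw [hc]
    field_simp
    ring
  have hzm : (⟨z, hz⟩ : O) ∈ IsLocalRing.maximalIdeal O := (max_iff _).2 (Or.inr hz')
  have hu : IsUnit (1 - ⟨z, hz⟩ * c : O) := by
    by_contra h1
    have h2 : (1 - ⟨z, hz⟩ * c : O) ∈ IsLocalRing.maximalIdeal O :=
      (IsLocalRing.mem_maximalIdeal _).2 h1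
    have h3 : (1 : O) ∈ IsLocalRing.maximalIdeal O := by
      have h4 := Ideal.add_mem _ h2 (Ideal.mul_mem_right c _ hzm)
      rwa [sub_add_cancel] at h4
    exact (Ideal.ne_top_iff_one _).1 (IsLocalRing.maximalIdeal.isMaximal O).ne_top h3
  obtain ⟨hu1, hu2⟩ := (unit_iff _).1 hu
  have hcast : (((1 - ⟨z, hz⟩ * c : O) : O) : L) = 1 - z * c := rfl
  rw [hcast] at hu1 hu2
  have hw : ∀ y : K, y ∈ vP K P ↔ ι (algebraMap K E y) ∈ O := fun y => by
    rw [← hA.2]
    exact Iff.rfl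
  refine ⟨x, ?_, ?_, ?_⟩
  · rw [hw, hιx]
    exact O.mul_mem _ _ hz (1 - ⟨z, hz⟩ * c : O).2
  · rw [hw, map_inv₀, map_inv₀, hιx]
    intro h1
    apply hz'
    have h3 : z⁻¹ = (z * (1 - z * c))⁻¹ * (1 - z * c) := by
      rw [mul_inv, mul_assoc, inv_mul_cancel₀ hu1, mul_one]
    rw [h3]
    exact O.mul_mem _ _ h1 (1 - ⟨z, hz⟩ * c : O).2
  · have h3 : z / ι (algebraMap K E x) = (1 - z * (c : L))⁻¹ := by
      rw [hιx]
      field_simp
    rw [h3]
    exact hu2

/-- A local class over `L'` is a local class over `L` if there is a homomorphism from `L'` to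
`L`. -/
theorem h22_locsol_map {L' L : Type} [Field L'] [Field L] (σ : L' →+* L) {f p : L'[X]}
    (h : LocSol f p) : LocSol (f.map σ) (p.map σ) := by
  obtain ⟨u, w, s, hu, hc, hw, hs⟩ := h
  refine ⟨u.map σ, w.map σ, s.map σ, hu.map σ, ?_, ?_, ?_⟩
  · have h1 := hc.map (Polynomial.mapRingHom σ)
    exact h1
  · have h1 := _root_.map_dvd (Polynomial.mapRingHom σ) hw
    rw [map_sub, map_pow] at h1
    exact h1
  · have h1 := _root_.map_dvd (Polynomial.mapRingHom σ) hs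
    rw [map_sub, map_mul, map_mul, map_pow, map_pow, map_neg, map_one] at h1
    rw [hu.natDegree_map]
    exact h1

/-- E2I: from `E` to `K`. -/
theorem e2i (hX : EXCNStmt) (hS : SPC2Stmt) (hA : ABVNStmt) : E2IStmt := by
  intro K _ _ E _ _ _ _ hsp f α h L _ O ι hc h2
  obtain ⟨P, hP⟩ := hA K K inferInstance L O ι hc
  have h2P : (2 : 𝓞 K) ∈ P.asIdeal := (hS K P K L O ι hP).2.2 h2
  obtain ⟨L', _, O', ι', hP'⟩ := hX K P E inferInstance inferInstance
  have hcK := (hS K P E L' O' ι' hP').1 (hsp P h2P)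
  have hV : ∀ x : K, (ι'.comp (algebraMap K E)) x ∈ O' ↔ ι x ∈ O := by
    intro x
    have h3 : x ∈ O'.comap (ι'.comp (algebraMap K E)) ↔ x ∈ O.comap (ι.comp (algebraMap K K)) := by
      rw [hP.2, hP'.2]
    exact h3
  obtain ⟨σ, hσ⟩ := cpu K L' O' (ι'.comp (algebraMap K E)) L O ι hcK hc hV
  have h3 := h22_locsol_map σ (h L' O' ι' P hP' h2P)
  have h4 : ∀ q : K[X], ((q.map (algebraMap K E)).map ι').map σ = q.map ι := by
    intro q
    rw [Polynomial.map_map, Polynomial.map_map]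
    congr 1
    ext x
    exact hσ x
  rw [h4, h4 α] at h3
  exact h3

end Pool.RZT
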